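import Pool.Agent.U293.CJ.Defs

/-!
# Semidistributive lattices from antisymmetric relations with factorization
-/

set_option autoImplicit false

namespace Pool.Agent.U293.CJ

/-- a reflexive antisymmetric relation such that every arrow `x → z` factors as `x ↠ y ↪ z` -/
structure Good {S : Type*} (R : S → S → Prop) : Prop where
  refl : ∀ x, R x x
  anti : ∀ x y, R x y → R y x → x = y
  fact : ∀ x z, R x z → ∃ y, (∀ t, R y t → R x t) ∧ (∀ t, R t y → R t z)

/-- the lattice of the unions of the sets `out x = {t | x → t}` -/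
def Lat {S : Type*} (R : S → S → Prop) : Type _ :=
  {T : Set S // ∀ t ∈ T, ∃ u, R u t ∧ ∀ s, R u s → s ∈ T}

namespace Lat

variable {S : Type*} {R : S → S → Prop}

instance : PartialOrder (Lat R) := inferInstanceAs (PartialOrder {_T : Set S // _})

instance [Finite S] : Finite (Lat R) := inferInstanceAs (Finite {_T : Set S // _})

theorem le_def {A B : Lat R} : A ≤ B ↔ ∀ t, t ∈ A.1 → t ∈ B.1 := Iff.rfl

instance : Lattice (Lat R) :=
  { (inferInstance : PartialOrder (Lat R)) with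
    sup := fun A B => ⟨A.1 ∪ B.1, by
      rintro t (h | h)
      · obtain ⟨u, h1, h2⟩ := A.2 t h
        exact ⟨u, h1, fun s hs => Or.inl (h2 s hs)⟩
      · obtain ⟨u, h1, h2⟩ := B.2 t h
        exact ⟨u, h1, fun s hs => Or.inr (h2 s hs)⟩⟩
    inf := fun A B => ⟨{t | ∃ u, R u t ∧ ∀ s, R u s → s ∈ A.1 ∧ s ∈ B.1}, by
      rintro t ⟨u, h1, h2⟩
      exact ⟨u, h1, fun s hs => ⟨u, hs, h2⟩⟩⟩
    le_sup_left := fun A B t h => Or.inl h
    le_sup_right := fun A B t h => Or.inr h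
    sup_le := fun A B C h1 h2 t h => h.elim (fun h => h1 h) (fun h => h2 h)
    inf_le_left := fun A B t ⟨u, h1, h2⟩ => (h2 t h1).1
    inf_le_right := fun A B t ⟨u, h1, h2⟩ => (h2 t h1).2
    le_inf := fun A B C h1 h2 t h => by
      obtain ⟨u, h3, h4⟩ := A.2 t h
      exact ⟨u, h3, fun s hs => ⟨h1 (h4 s hs), h2 (h4 s hs)⟩⟩ }

theorem mem_sup {A B : Lat R} {t : S} : t ∈ (A ⊔ B).1 ↔ t ∈ A.1 ∨ t ∈ B.1 := Iff.rfl

theorem mem_inf {A B : Lat R} {t : S} :
    t ∈ (A ⊓ B).1 ↔ ∃ u, R u t ∧ ∀ s, R u s → s ∈ A.1 ∧ s ∈ B.1 := Iff.rfl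

/-- the element `out x` -/
def o (x : S) : Lat R := ⟨{t | R x t}, fun _ ht => ⟨x, ht, fun _ hs => hs⟩⟩

theorem mem_o {x t : S} : t ∈ (o (R := R) x).1 ↔ R x t := Iff.rfl

variable (hR : Good R)
include hR

theorem o_inj {x y : S} (h : o (R := R) x = o y) : x = y := by
  have h1 : y ∈ (o (R := R) x).1 := by
    rw [h]
    exact hR.refl y
  have h2 : x ∈ (o (R := R) y).1 := by
    rw [← h]
    exact hR.refl x
  exact hR.anti x y h1 h2

/-- join-semidistributivity -/
theorem jsd [Finite S] (A B C : Lat R) (h : A ⊔ B = A ⊔ C) : A ⊔ (B ⊓ C) = A ⊔ B := by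
  apply le_antisymm (sup_le le_sup_left (inf_le_left.trans le_sup_right))
  refine sup_le le_sup_left ?_
  intro z hz
  by_cases hzA : z ∈ A.1
  · exact Or.inl hzA
  right
  have hBC : ∀ t, t ∈ B.1 → t ∉ A.1 → t ∈ C.1 := by
    intro t h1 h2
    have h3 : t ∈ (A ⊔ C).1 := by
      rw [← h]
      exact Or.inr h1
    exact h3.resolve_left h2
  have hCB : ∀ t, t ∈ C.1 → t ∉ A.1 → t ∈ B.1 := by
    intro t h1 h2
    have h3 : t ∈ (A ⊔ B).1 := by
      rw [h]
      exact Or.inr h1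
    exact h3.resolve_left h2
  -- the relation `↪`
  let r : S → S → Prop := fun y x => (∀ t, R t y → R t x) ∧ y ≠ x
  have hwf : WellFounded r := by
    have : IsTrans S r := ⟨fun a b c h1 h2 => ⟨fun t ht => h2.1 t (h1.1 t ht), fun hac => by
      subst hac
      exact h1.2 (hR.anti _ _ (h1.1 _ (hR.refl _)) (h2.1 _ (hR.refl _)))⟩⟩
    have : Std.Irrefl r := ⟨fun a h1 => h1.2 rfl⟩
    exact Finite.wellFounded_of_trans_of_irrefl r
  obtain ⟨y, ⟨hy1, hy2, hy3⟩, hmin⟩ := hwf.has_min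
    {y | (∀ t, R t y → R t z) ∧ y ∉ A.1 ∧ y ∈ B.1} ⟨z, fun t ht => ht, hzA, hz⟩
  have key : ∀ X : Lat R, (∀ t, t ∈ X.1 → t ∉ A.1 → t ∈ B.1) → y ∈ X.1 →
      ∀ s, R y s → s ∈ X.1 := by
    intro X hX hyX
    obtain ⟨u, hu1, hu2⟩ := X.2 y hyX
    obtain ⟨y', h1, h2⟩ := hR.fact u y hu1
    have h3 : y' = y := by
      by_contra hne
      apply hmin y' ⟨fun t ht => hy1 t (h2 t ht), ?_, ?_⟩ ⟨h2, hne⟩
      · intro hA
        obtain ⟨a, ha1, ha2⟩ := A.2 y' hA
        exact hy2 (ha2 y (h2 a ha1))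
      · apply hX
        · exact hu2 y' (h1 y' (hR.refl y'))
        · intro hA
          obtain ⟨a, ha1, ha2⟩ := A.2 y' hA
          exact hy2 (ha2 y (h2 a ha1))
    subst h3
    exact fun s hs => hu2 s (h1 s hs)
  have k1 := key B (fun t h _ => h) hy3
  have k2 := key C hCB (hBC y hy3 hy2)
  exact ⟨y, hy1 y (hR.refl y), fun s hs => ⟨k1 s hs, k2 s hs⟩⟩

/-- meet-semidistributivity -/
theorem msd [Finite S] (A B C : Lat R) (h : A ⊓ B = A ⊓ C) : A ⊓ (B ⊔ C) = A ⊓ B := by
  apply le_antisymm _ (inf_le_inf_left _ le_sup_left)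
  let r : S → S → Prop := fun y x => (∀ t, R y t → R x t) ∧ y ≠ x
  have hwf : WellFounded r := by
    have : IsTrans S r := ⟨fun a b c h1 h2 => ⟨fun t ht => h2.1 t (h1.1 t ht), fun hac => by
      subst hac
      exact h1.2 (hR.anti _ _ (h2.1 _ (hR.refl _)) (h1.1 _ (hR.refl _)))⟩⟩
    have : Std.Irrefl r := ⟨fun a h1 => h1.2 rfl⟩
    exact Finite.wellFounded_of_trans_of_irrefl r
  have key : ∀ u, (∀ s, R u s → s ∈ A.1 ∧ s ∈ (B ⊔ C).1) → ∀ s, R u s → s ∈ B.1 := by
    intro u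
    induction u using hwf.induction with
    | _ u ih =>
      intro hu
      -- smaller elements
      have hs : ∀ y, (∀ t, R y t → R u t) → y ≠ u → ∀ s, R y s → s ∈ B.1 ∧ s ∈ C.1 := by
        intro y h1 h2
        have h3 := ih y ⟨h1, h2⟩ (fun s hs => hu s (h1 s hs))
        have h4 : ∀ s, R y s → s ∈ (A ⊓ B).1 := fun s hs =>
          ⟨y, hs, fun s' hs' => ⟨(hu s' (h1 s' hs')).1, h3 s' hs'⟩⟩
        intro s hs
        refine ⟨h3 s hs, ?_⟩
        have h5 := h4 s hs
        rw [h] at h5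
        obtain ⟨v, hv1, hv2⟩ := h5
        exact (hv2 s hv1).2
      have hX : ∀ X : Lat R, (∀ y, (∀ t, R y t → R u t) → y ≠ u → ∀ s, R y s → s ∈ X.1) →
          u ∈ X.1 → ∀ s, R u s → s ∈ X.1 := by
        intro X h1 h2 s hs'
        obtain ⟨b, hb1, hb2⟩ := X.2 u h2
        obtain ⟨y, hy1, hy2⟩ := hR.fact u s hs'
        by_cases hy : y = u
        · subst hy
          exact hb2 s (hy2 b hb1)
        · exact h1 y hy1 hy s (hy2 y (hR.refl y))
      rcases (hu u (hR.refl u)).2 with hB | hC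
      · exact hX B (fun y h1 h2 s h3 => (hs y h1 h2 s h3).1) hB
      · have h6 := hX C (fun y h1 h2 s h3 => (hs y h1 h2 s h3).2) hC
        intro s hs'
        have h7 : s ∈ (A ⊓ C).1 := ⟨u, hs', fun s' hs'' => ⟨(hu s' hs'').1, h6 s' hs''⟩⟩
        rw [← h] at h7
        obtain ⟨v, hv1, hv2⟩ := h7
        exact (hv2 s hv1).2
  intro t ht
  obtain ⟨u, hu1, hu2⟩ := ht
  exact ⟨u, hu1, fun s hs => ⟨(hu2 s hs).1, key u hu2 s hs⟩⟩

theorem semidistributive [Finite S] : IsSemidistributive (Lat R) :=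
  ⟨fun A B C => jsd hR A B C, fun A B C => msd hR A B C⟩

theorem supIrred_o (x : S) : SupIrred (o (R := R) x) := by
  constructor
  · intro h
    have h1 : (⟨∅, fun t ht => absurd ht (Set.notMem_empty t)⟩ : Lat R) ≤ o x :=
      fun t ht => absurd ht (Set.notMem_empty t)
    have h2 := h h1
    exact h2 (show x ∈ (o (R := R) x).1 from hR.refl x)
  · intro A B hAB
    have hx : x ∈ (A ⊔ B).1 := by
      rw [hAB]
      exact hR.refl x
    have key : ∀ A : Lat R, A ≤ o x → x ∈ A.1 → A = o x := by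
      intro A hA hxA
      obtain ⟨a, ha1, ha2⟩ := A.2 x hxA
      have h1 : R x a := hA (ha2 a (hR.refl a))
      have h2 : a = x := hR.anti a x ha1 h1
      subst h2
      exact le_antisymm hA fun t ht => ha2 t ht
    rcases hx with hx | hx
    · exact Or.inl (key A (hAB ▸ le_sup_left) hx)
    · exact Or.inr (key B (hAB ▸ le_sup_right) hx)

/-- the union of the `out x`, `x ∈ A` -/
def un (R : S → S → Prop) (A : Set S) : Lat R :=
  ⟨{t | ∃ a ∈ A, R a t}, fun _ ⟨a, ha, hat⟩ => ⟨a, hat, fun _ hs => ⟨a, ha, hs⟩⟩⟩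

omit hR in
theorem isLUB_un (A : Set S) : IsLUB (o (R := R) '' A) (un R A) := by
  constructor
  · rintro _ ⟨a, ha, rfl⟩ t ht
    exact ⟨a, ha, ht⟩
  · intro X hX t ht
    obtain ⟨a, ha, hat⟩ := ht
    exact hX ⟨a, ha, rfl⟩ hat

/-- The faces of the canonical join complex. -/
theorem face_iff (A : Set S) :
    Face (o (R := R) '' A) ↔ ∀ u ∈ A, ∀ w ∈ A, u ≠ w → ¬ R u w := by
  constructor
  · rintro ⟨W, hW, hirr, href⟩ u hu w hw huw huw'
    have hWA : W = un R A := hW.unique (isLUB_un A)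
    subst hWA
    have hB : IsLUB (o (R := R) '' (A \ {w} ∪ {y | (∀ t, R y t → R w t) ∧ y ≠ w})) (un R A) := by
      have e : un R (A \ {w} ∪ {y | (∀ t, R y t → R w t) ∧ y ≠ w}) = un R A := by
        apply le_antisymm
        · rintro t ⟨a, ha | ha, hat⟩
          · exact ⟨a, ha.1, hat⟩
          · exact ⟨w, hw, ha.1 t hat⟩
        · rintro t ⟨a, ha, hat⟩
          by_cases haw : a = w
          · subst haw
            obtain ⟨y, hy1, hy2⟩ := hR.fact a t hat
            by_cases hya : y = a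
            · subst hya
              exact ⟨u, Or.inl ⟨hu, huw⟩, hy2 u huw'⟩
            · exact ⟨y, Or.inr ⟨hy1, hya⟩, hy2 y (hR.refl y)⟩
          · exact ⟨a, Or.inl ⟨ha, haw⟩, hat⟩
      rw [← e]
      exact isLUB_un _
    obtain ⟨b, ⟨v, hv, rfl⟩, hle⟩ := href _ hB (o w) ⟨w, hw, rfl⟩
    rcases hv with hv | hv
    · apply hirr (o (R := R) '' (A \ {w}))
      · refine ⟨Set.image_mono Set.sdiff_subset, fun h => ?_⟩
        obtain ⟨x, hx, hxw⟩ := h ⟨w, hw, rfl⟩
        exact hx.2 (o_inj hR hxw)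
      · have e : un R (A \ {w}) = un R A := by
          apply le_antisymm
          · rintro t ⟨a, ha, hat⟩
            exact ⟨a, ha.1, hat⟩
          · rintro t ⟨a, ha, hat⟩
            by_cases haw : a = w
            · subst haw
              exact ⟨v, hv, hle hat⟩
            · exact ⟨a, ⟨ha, haw⟩, hat⟩
        rw [← e]
        exact isLUB_un _
    · exact hv.2 (hR.anti v w (hle (hR.refl w)) (hv.1 v (hR.refl v)))
  · intro h
    refine ⟨un R A, isLUB_un A, ?_, ?_⟩
    · intro B hB hlub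
      obtain ⟨x, hx, hxB⟩ := Set.exists_of_ssubset hB
      obtain ⟨w, hw, rfl⟩ := hx
      -- `w` is not covered by the remaining elements
      have h1 : un R A ≤ un R (A \ {w}) := by
        apply hlub.2
        intro b hb
        obtain ⟨v, hv, rfl⟩ := hB.1 hb
        intro t ht
        exact ⟨v, ⟨hv, fun hvw => hxB (by
          rw [Set.mem_singleton_iff] at hvw
          rw [← hvw]
          exact hb)⟩, ht⟩
      obtain ⟨a, ha, haw⟩ := h1 (show w ∈ (un R A).1 from ⟨w, hw, hR.refl w⟩)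
      exact h a ha.1 w hw ha.2 haw
    · intro B hB a ha
      obtain ⟨w, hw, rfl⟩ := ha
      obtain ⟨X, hX, hwX⟩ : ∃ X ∈ B, w ∈ X.1 := by
        by_contra hcon
        push Not at hcon
        -- the union of `B`
        let U : Lat R := ⟨{t | ∃ X ∈ B, t ∈ X.1}, by
          rintro t ⟨X, hX, ht⟩
          obtain ⟨u, h1, h2⟩ := X.2 t ht
          exact ⟨u, h1, fun s hs => ⟨X, hX, h2 s hs⟩⟩⟩
        have h1 : un R A ≤ U := hB.2 fun X hX t ht => ⟨X, hX, ht⟩
        obtain ⟨X, hX, hwX⟩ := h1 (show w ∈ (un R A).1 from ⟨w, hw, hR.refl w⟩)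
        exact hcon X hX hwX
      refine ⟨X, hX, ?_⟩
      obtain ⟨b, hb1, hb2⟩ := X.2 w hwX
      obtain ⟨y, hy1, hy2⟩ := hR.fact b w hb1
      have hyT : y ∈ (un R A).1 := hB.1 hX (hb2 y (hy1 y (hR.refl y)))
      obtain ⟨w', hw', hw'y⟩ := hyT
      have h1 : R w' w := hy2 w' hw'y
      have h2 : w' = w := by
        by_contra hne
        exact h w' hw' w hw hne h1
      subst h2
      have h3 : y = w' := hR.anti y w' (hy2 y (hR.refl y)) hw'y
      subst h3
      exact fun t ht => hb2 t (hy1 t ht)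

end Lat

/-- The relation attached to a graph on a linearly ordered set: the vertices `inl x`, the edges
`inr (a, b)`, `a < b`; arrows `a → (a, b) → b` and `a → b`. -/
def GR {V : Type*} [LinearOrder V] (G : SimpleGraph V) : V ⊕ (V × V) → V ⊕ (V × V) → Prop
  | .inl x, .inl z => x = z ∨ (x < z ∧ G.Adj x z)
  | .inl x, .inr p => x = p.1 ∧ p.1 < p.2 ∧ G.Adj p.1 p.2
  | .inr p, .inl z => z = p.2 ∧ p.1 < p.2 ∧ G.Adj p.1 p.2
  | .inr p, .inr q => p = q

theorem good_GR {V : Type*} [LinearOrder V] (G : SimpleGraph V) : Good (GR G) where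
  refl := by
    rintro (x | p)
    · exact Or.inl rfl
    · exact rfl
  anti := by
    rintro (x | p) (y | q) h1 h2
    · rcases h1 with h1 | h1
      · rw [h1]
      · rcases h2 with h2 | h2
        · rw [h2]
        · exact absurd h1.1 (lt_asymm h2.1)
    · obtain ⟨e1, e2, -⟩ := h1
      obtain ⟨e3, -, -⟩ := h2
      exact absurd e2 (by rw [← e1, ← e3]; exact lt_irrefl _)
    · obtain ⟨e1, e2, -⟩ := h1
      obtain ⟨e3, -, -⟩ := h2
      exact absurd e2 (by rw [← e1, ← e3]; exact lt_irrefl _)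
    · rw [show p = q from h1]
  fact := by
    have hout : ∀ x z, x < z → G.Adj x z → ∀ t, GR G (.inr (x, z)) t → GR G (.inl x) t := by
      rintro x z h1 h2 (t | q) ht
      · obtain ⟨e, -, -⟩ := ht
        subst e
        exact Or.inr ⟨h1, h2⟩
      · have e : (x, z) = q := ht
        subst e
        exact ⟨rfl, h1, h2⟩
    have hin : ∀ x z, x < z → G.Adj x z → ∀ t, GR G t (.inr (x, z)) → GR G t (.inl z) := by
      rintro x z h1 h2 (t | q) ht
      · obtain ⟨e, -, -⟩ := ht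
        subst e
        exact Or.inr ⟨h1, h2⟩
      · have e : q = (x, z) := ht
        subst e
        exact ⟨rfl, h1, h2⟩
    rintro (x | p) (z | q) h
    · rcases h with h | h
      · subst h
        exact ⟨.inl x, fun t ht => ht, fun t ht => ht⟩
      · exact ⟨.inr (x, z), hout x z h.1 h.2, hin x z h.1 h.2⟩
    · obtain ⟨e, h1, h2⟩ := h
      subst e
      exact ⟨.inr q, hout q.1 q.2 h1 h2, fun t ht => ht⟩
    · obtain ⟨e, h1, h2⟩ := h
      subst e
      exact ⟨.inr p, fun t ht => ht, hin p.1 p.2 h1 h2⟩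
    · have e : p = q := h
      subst e
      exact ⟨.inr p, fun t ht => ht, fun t ht => ht⟩

end Pool.Agent.U293.CJ
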