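import Pool.Agent.U293.CJ.Defs

/-!
# Triangle-free complements of canonical join complexes are 3-colourable
-/

set_option autoImplicit false

namespace Pool.Agent.U293.CJ

variable {L : Type*} [Lattice L]

/-- the elements that are above everything strictly below `j`, but not above `j` -/
def KS (j : L) : Set L := {x | (∀ y, y < j → y ≤ x) ∧ ¬ j ≤ x}

theorem exists_greatest [Finite L] {S : Set L} (hne : S.Nonempty)
    (hsup : ∀ x ∈ S, ∀ y ∈ S, x ⊔ y ∈ S) : ∃ k, IsGreatest S k := by
  obtain ⟨m, hm⟩ := (Set.toFinite S).exists_maximal hne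
  refine ⟨m, hm.1, fun x hx => ?_⟩
  have h1 : m ⊔ x ∈ S := hsup m hm.1 x hx
  have h2 := hm.2 h1 le_sup_left
  exact le_sup_right.trans h2

theorem exists_kap [Finite L] (hL : IsSemidistributive L) {j : L} (hj : SupIrred j) :
    ∃ k, IsGreatest (KS j) k := by
  apply exists_greatest
  · -- the lower cover
    have hne : ({x | x < j} : Set L).Nonempty := by
      have h := hj.1
      rw [not_isMin_iff] at h
      obtain ⟨b, hb⟩ := h
      exact ⟨b, hb⟩
    obtain ⟨l, hl, hl2⟩ := exists_greatest hne (fun x hx y hy => by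
      refine lt_of_le_of_ne (sup_le (le_of_lt hx) (le_of_lt hy)) fun h => ?_
      rcases hj.2 h with h | h
      · exact (ne_of_lt hx) h
      · exact (ne_of_lt hy) h)
    exact ⟨l, fun y hy => hl2 hy, fun h => absurd hl (not_lt_of_ge h)⟩
  · intro x hx y hy
    refine ⟨fun z hz => (hx.1 z hz).trans le_sup_left, fun h => ?_⟩
    have e : j ⊓ x = j ⊓ y := by
      have key : ∀ x ∈ KS j, ∀ y ∈ KS j, j ⊓ x ≤ j ⊓ y := by
        intro x hx y hy
        refine le_inf inf_le_left (hy.1 _ ?_)
        refine lt_of_le_of_ne inf_le_left fun h => hx.2 ?_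
        exact inf_eq_left.1 h
      exact le_antisymm (key x hx y hy) (key y hy x hx)
    have h2 := hL.2 j x y e
    rw [inf_eq_left.2 h] at h2
    exact hx.2 (inf_eq_left.1 h2.symm)

open Classical in
/-- the element `κ(j)` -/
noncomputable def kap (j : L) : L := if h : ∃ k, IsGreatest (KS j) k then h.choose else j

theorem kap_spec [Finite L] (hL : IsSemidistributive L) {j : L} (hj : SupIrred j) :
    IsGreatest (KS j) (kap j) := by
  have h := exists_kap hL hj
  unfold kap
  rw [dif_pos h]
  exact h.choose_spec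

section
variable [Finite L] (hL : IsSemidistributive L)
include hL

theorem not_le_kap {j : L} (hj : SupIrred j) : ¬ j ≤ kap j := (kap_spec hL hj).1.2

theorem le_kap_of_lt {j y : L} (hj : SupIrred j) (h : y < j) : y ≤ kap j :=
  (kap_spec hL hj).1.1 y h

theorem le_of_not_le_kap {j x : L} (hj : SupIrred j) (h1 : ∀ y, y < j → y ≤ x)
    (h2 : ¬ x ≤ kap j) : j ≤ x := by
  by_contra h
  exact h2 ((kap_spec hL hj).2 ⟨h1, h⟩)

theorem factor {i j : L} (h : ¬ i ≤ kap j) :
    ∃ y, SupIrred y ∧ y ≤ i ∧ ¬ y ≤ kap j ∧ kap j ≤ kap y := by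
  obtain ⟨y, hy⟩ := (Set.toFinite {x | x ≤ i ∧ ¬ x ≤ kap j}).exists_minimal ⟨i, le_rfl, h⟩
  have hmin : ∀ b, b < y → b ≤ kap j := by
    intro b hb
    by_contra hcon
    have := hy.2 (y := b) ⟨hb.le.trans hy.1.1, hcon⟩ hb.le
    exact absurd hb (not_lt_of_ge this)
  have hirr : SupIrred y := by
    refine ⟨fun hm => hy.1.2 ?_, fun b c hbc => ?_⟩
    · have h1 : y ⊓ kap j ≤ y := inf_le_left
      exact (hm h1).trans inf_le_right
    · by_contra hcon
      push Not at hcon
      have hb : b < y := lt_of_le_of_ne (hbc ▸ le_sup_left) hcon.1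
      have hc : c < y := lt_of_le_of_ne (hbc ▸ le_sup_right) hcon.2
      exact hy.1.2 (hbc ▸ sup_le (hmin b hb) (hmin c hc))
  exact ⟨y, hirr, hy.1.1, hy.1.2, (kap_spec hL hirr).2 ⟨hmin, hy.1.2⟩⟩

theorem kap_inj {i j : L} (hi : SupIrred i) (hj : SupIrred j) (h : kap i = kap j) : i = j := by
  have key : ∀ i j : L, SupIrred i → SupIrred j → kap i = kap j → kap i ⊔ i ≤ kap i ⊔ j := by
    intro i j hi hj h
    refine sup_le le_sup_left (le_of_not_le_kap hL hi ?_ ?_)
    · exact fun y hy => (le_kap_of_lt hL hi hy).trans le_sup_left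
    · intro hcon
      apply not_le_kap hL hj
      rw [← h]
      exact le_sup_right.trans hcon
  have e : kap i ⊔ i = kap i ⊔ j := by
    apply le_antisymm (key i j hi hj h)
    rw [h]
    exact key j i hj hi h.symm
  have h2 := hL.1 _ _ _ e
  by_contra hne
  have h3 : i ⊓ j ≤ kap i := by
    by_cases h4 : i ⊓ j = i
    · have h5 : i ⊓ j < j := by
        rw [h4]
        exact lt_of_le_of_ne (inf_eq_left.1 h4) hne
      rw [h]
      exact le_kap_of_lt hL hj h5
    · exact le_kap_of_lt hL hi (lt_of_le_of_ne inf_le_left h4)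
  rw [sup_eq_left.2 h3] at h2
  exact not_le_kap hL hi (h2 ▸ le_sup_right)

/-- pairs `{i, j}` with `i ≤ κ(j)` and `j ≤ κ(i)` are faces -/
theorem pair_face {i j : L} (hi : SupIrred i) (hj : SupIrred j) (h1 : i ≤ kap j)
    (h2 : j ≤ kap i) : Face ({i, j} : Set L) := by
  refine ⟨i ⊔ j, isLUB_pair, ?_, ?_⟩
  · intro B hB hlub
    have hle : ¬ i ≤ j := fun h => not_le_kap hL hi (h.trans h2)
    have hle' : ¬ j ≤ i := fun h => not_le_kap hL hj (h.trans h1)
    by_cases hiB : i ∈ B
    · have hjB : j ∉ B := by
        intro hjB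
        apply hB.2
        rintro x (rfl | rfl)
        · exact hiB
        · exact hjB
      apply hle'
      refine le_sup_right.trans (hlub.2 ?_)
      intro b hb
      rcases hB.1 hb with rfl | rfl
      · exact le_rfl
      · exact absurd hb hjB
    · apply hle
      refine le_sup_left.trans (hlub.2 ?_)
      intro b hb
      rcases hB.1 hb with rfl | rfl
      · exact absurd hb hiB
      · exact le_rfl
  · have key : ∀ i j : L, SupIrred i → j ≤ kap i → ∀ B, IsLUB B (i ⊔ j) → ∃ b ∈ B, i ≤ b := by
      intro i j hi h2 B hB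
      obtain ⟨b, hb, hbk⟩ : ∃ b ∈ B, ¬ b ≤ kap i := by
        by_contra hcon
        push Not at hcon
        exact not_le_kap hL hi (le_sup_left.trans (hB.2 fun b hb => hcon b hb))
      refine ⟨b, hb, ?_⟩
      by_contra hib
      have hbw : b ≤ i ⊔ j := hB.1 hb
      have hjn : j ≤ kap i ⊓ (i ⊔ j) := le_inf h2 le_sup_right
      have e1 : kap i ⊓ (i ⊔ j) ⊔ i = i ⊔ j :=
        le_antisymm (sup_le inf_le_right le_sup_left) (sup_le le_sup_right (hjn.trans le_sup_left))
      have hlow : ∀ y, y < i → y ≤ kap i ⊓ (i ⊔ j) := fun y hy =>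
        le_inf (le_kap_of_lt hL hi hy) (hy.le.trans le_sup_left)
      have e2 : kap i ⊓ (i ⊔ j) ⊔ b = i ⊔ j := by
        apply le_antisymm (sup_le inf_le_right hbw)
        refine sup_le ?_ (hjn.trans le_sup_left)
        refine le_of_not_le_kap hL hi (fun y hy => (hlow y hy).trans le_sup_left) fun h => ?_
        exact hbk (le_sup_right.trans h)
      have h3 := hL.1 _ _ _ (e1.trans e2.symm)
      have h4 : i ⊓ b ≤ kap i ⊓ (i ⊔ j) := by
        apply hlow
        exact lt_of_le_of_ne inf_le_left fun h => hib (inf_eq_left.1 h)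
      rw [sup_eq_left.2 h4, e1] at h3
      apply not_le_kap hL hi
      calc i ≤ i ⊔ j := le_sup_left
        _ = kap i ⊓ (i ⊔ j) := h3.symm
        _ ≤ kap i := inf_le_left
    intro B hB a ha
    rcases ha with rfl | rfl
    · exact key a j hi h2 B hB
    · refine key a i hj h1 B ?_
      rw [sup_comm]
      exact hB

/-- if `{i, j}` is a face then `j ≤ κ(i)` -/
theorem le_kap_of_face {i j : L} (hi : SupIrred i) (hij : i ≠ j)
    (h : Face ({i, j} : Set L)) : j ≤ kap i := by
  obtain ⟨w, hw, hirr, href⟩ := h
  by_contra hcon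
  have hB : IsLUB ({y | y < i} ∪ {j}) w := by
    constructor
    · rintro y (hy | hy)
      · exact (le_of_lt hy).trans (hw.1 (by simp))
      · rw [Set.mem_singleton_iff] at hy
        rw [hy]
        exact hw.1 (by simp)
    · intro x hx
      apply hw.2
      have hjx : j ≤ x := hx (Or.inr rfl)
      rintro y (rfl | rfl)
      · refine le_of_not_le_kap hL hi (fun z hz => hx (Or.inl hz)) fun h => hcon (hjx.trans h)
      · exact hjx
  obtain ⟨b, hb, hib⟩ := href _ hB i (by simp)
  rcases hb with hb | hb
  · exact absurd hb (not_lt_of_ge hib)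
  · rw [Set.mem_singleton_iff] at hb
    subst hb
    apply hirr {b}
    · refine ⟨by simp, fun h => ?_⟩
      have := h (show i ∈ ({i, b} : Set L) by simp)
      exact hij this
    · constructor
      · intro y hy
        rw [Set.mem_singleton_iff] at hy
        rw [hy]
        exact hw.1 (by simp)
      · intro x hx
        apply hw.2
        have hbx : b ≤ x := hx rfl
        rintro y (rfl | rfl)
        · exact hib.trans hbx
        · exact hbx

end

/-- If the complement of a canonical join complex (the graph of non-edges) is a triangle-free graph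
`G`, then `G` is 3-colourable. -/
theorem three_colorable [Finite L] (hL : IsSemidistributive L) {V : Type*} (G : SimpleGraph V)
    (htri : ∀ a b c, G.Adj a b → G.Adj b c → ¬ G.Adj a c)
    (e : V ≃ {j : L // SupIrred j})
    (he : ∀ u v, u ≠ v → (Face ({(e u).1, (e v).1} : Set L) ↔ ¬ G.Adj u v)) :
    Nonempty (G.Coloring (Fin 3)) := by
  classical
  have hne : ∀ u v, u ≠ v → (e u).1 ≠ (e v).1 := fun u v h h' => h (e.injective (Subtype.ext h'))
  -- arrows
  have harr : ∀ u v, u ≠ v → ¬ (e u).1 ≤ kap (e v).1 → G.Adj u v := by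
    intro u v huv h
    by_contra hcon
    have h1 := (he u v huv).2 hcon
    rw [Set.pair_comm] at h1
    exact h (le_kap_of_face hL (e v).2 (hne v u huv.symm) h1)
  have hadj : ∀ u v, G.Adj u v → ¬ (e u).1 ≤ kap (e v).1 ∨ ¬ (e v).1 ≤ kap (e u).1 := by
    intro u v huv
    by_contra hcon
    push Not at hcon
    exact (he u v huv.ne).1 (pair_face hL (e u).2 (e v).2 hcon.1 hcon.2) huv
  -- every arrow is of type one or two
  have htype : ∀ u v, u ≠ v → ¬ (e u).1 ≤ kap (e v).1 →
      (e v).1 ≤ (e u).1 ∨ kap (e v).1 ≤ kap (e u).1 := by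
    intro u v huv h
    obtain ⟨y, hy, hyu, hyv, hky⟩ := factor hL h
    obtain ⟨w, hw⟩ := e.surjective ⟨y, hy⟩
    have hw' : (e w).1 = y := by rw [hw]
    by_cases h1 : w = v
    · left
      rw [← h1, hw']
      exact hyu
    · by_cases h2 : w = u
      · right
        rw [← h2, hw']
        exact hky
      · exfalso
        have a1 : G.Adj u w := by
          apply harr u w (Ne.symm h2)
          rw [hw']
          exact fun h => not_le_kap hL hy (hyu.trans h)
        have a2 : G.Adj w v := by
          apply harr w v h1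
          rw [hw']
          exact hyv
        exact htri u w v a1 a2 (harr u v huv h)
  -- no double arrows
  have hdouble : ∀ u v, u ≠ v → ¬ (e u).1 ≤ kap (e v).1 → (e v).1 ≤ kap (e u).1 := by
    intro u v huv h
    by_contra h'
    rcases htype u v huv h with h1 | h1
    · -- `e v ≤ e u`
      rcases htype v u huv.symm h' with h2 | h2
      · exact hne u v huv (le_antisymm h2 h1)
      · apply not_le_kap hL (e v).2
        exact (le_kap_of_lt hL (e u).2 (lt_of_le_of_ne h1 (hne v u huv.symm))).trans h2
    · rcases htype v u huv.symm h' with h2 | h2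
      · apply not_le_kap hL (e u).2
        exact (le_kap_of_lt hL (e v).2 (lt_of_le_of_ne h2 (hne u v huv))).trans h1
      · exact hne u v huv (kap_inj hL (e u).2 (e v).2 (le_antisymm h2 h1))
  -- sources and sinks
  let src : V → Prop := fun v => ∀ t, t ≠ v → (e t).1 ≤ kap (e v).1
  let snk : V → Prop := fun v => ∀ t, t ≠ v → (e v).1 ≤ kap (e t).1
  have hss : ∀ u v, u ≠ v → ¬ (e u).1 ≤ kap (e v).1 → snk v ∨ src u := by
    intro u v huv h
    rcases htype u v huv h with h1 | h1
    · left
      intro t ht
      by_contra hcon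
      by_cases htu : t = u
      · rw [htu] at hcon
        exact hcon (hdouble u v huv h)
      · have a1 : G.Adj u v := harr u v huv h
        have a2 : G.Adj v t := harr v t (Ne.symm ht) hcon
        have a3 : G.Adj u t := harr u t (Ne.symm htu) fun h5 => hcon (h1.trans h5)
        exact htri u v t a1 a2 a3
    · right
      intro t ht
      by_contra hcon
      by_cases htv : t = v
      · rw [htv] at hcon
        exact hcon (hdouble u v huv h)
      · have a1 : G.Adj t u := harr t u ht hcon
        have a2 : G.Adj u v := harr u v huv h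
        have a3 : G.Adj t v := harr t v htv fun h5 => hcon (h5.trans h1)
        exact htri t u v a1 a2 a3
  refine ⟨SimpleGraph.Coloring.mk (fun v => if src v then 0 else if snk v then 1 else 2) ?_⟩
  have main : ∀ u v, u ≠ v → ¬ (e u).1 ≤ kap (e v).1 →
      (if src u then (0 : Fin 3) else if snk u then 1 else 2) ≠
        (if src v then 0 else if snk v then 1 else 2) := by
    intro u v huv h
    have hu : ¬ snk u := fun hs => h (hs v huv.symm)
    have hv : ¬ src v := fun hs => h (hs u huv)
    rw [if_neg hv, if_neg hu]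
    rcases hss u v huv h with h1 | h1
    · rw [if_pos h1]
      split_ifs <;> decide
    · rw [if_pos h1]
      split_ifs <;> decide
  intro u v huv
  rcases hadj u v huv with h | h
  · exact main u v huv.ne h
  · exact (main v u huv.ne.symm h).symm

end Pool.Agent.U293.CJ
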