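import Mathlib

/-!
# Canonical join complexes of finite semidistributive lattices: definitions
-/

set_option autoImplicit false

namespace Pool.Agent.U293.CJ

/-- join-semidistributive and meet-semidistributive lattices -/
def IsSemidistributive (L : Type*) [Lattice L] : Prop :=
  (∀ x y z : L, x ⊔ y = x ⊔ z → x ⊔ (y ⊓ z) = x ⊔ y) ∧
  (∀ x y z : L, x ⊓ y = x ⊓ z → x ⊓ (y ⊔ z) = x ⊓ y)

/-- `A` is the canonical join representation of `w`: the join of `A` is `w`, no proper subset of `A`
has the join `w`, and `A` refines every set `B` with the join `w` (every `a ∈ A` lies below some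
`b ∈ B`). -/
def IsCanonicalJoinRep {L : Type*} [Lattice L] (A : Set L) (w : L) : Prop :=
  IsLUB A w ∧ (∀ B, B ⊂ A → ¬ IsLUB B w) ∧ ∀ B, IsLUB B w → ∀ a ∈ A, ∃ b ∈ B, a ≤ b

/-- The faces of the canonical join complex of `L`: the canonical join representations of the
elements of `L`. -/
def Face {L : Type*} [Lattice L] (A : Set L) : Prop :=
  ∃ w, IsCanonicalJoinRep A w

end Pool.Agent.U293.CJ
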